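import Mathlib
import Pool.Agent.Helper803.OD.OMain
import Pool.Agent.Helper803.TauCov.Main

/-!
# Critical cardinalities of the selection properties of τ-covers

In ZFC the critical cardinalities of `S_1(T,T)`, `S_fin(T,T)`, `S_fin(Γ,T)`, `S_1(T,Ω)`,
`S_1(T,O)` are `t`, `min(s,b)`, `b`, `od`, `od`, and `od` is not provably `cov(M)`: there is a
ccc forcing notion all of whose conditions force `cov(M) < od`.
-/

namespace Pool.Agent.Results.MP_556fe5_lc.TauCritical

open Pool.Agent.Helper803.TauCov Pool.Agent.Helper803.OD.OFormula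

theorem result :
    non (S1 Ta Ta) = tNum ∧ non (Sfin Ta Ta) = min sNum bNum ∧ non (Sfin Ga Ta) = bNum ∧
      non (S1 Ta Om) = odNum ∧ non (S1 Ta Cov) = odNum ∧
      ∃ (P : Type) (_ : Preorder P), Nonempty P ∧ CCC P ∧ ∀ p : P, p ∈ CovLtOd P :=
  ⟨non_S1TT, non_SfinTT, non_SfinGT, non_S1TOm, non_S1TO,
    Pool.Agent.Helper803.OD.OMain.exists_forcing⟩

end Pool.Agent.Results.MP_556fe5_lc.TauCritical
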